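import Pool.Agent.V7H45.TM.Exp

/-!
# The largest unlinked sets for the `k`-th moment

An unlinked set of types `(v, χ)` is a set of pairwise orthogonal vectors of a symplectic space of
dimension `4 k` over the field with two elements, so it has at most `4 ^ k` elements.
-/

set_option autoImplicit false

namespace Pool.Agent.V7H45.TM

open Finset Pool.Agent.W262.RK

section iso

variable {ι : Type} [Fintype ι] [DecidableEq ι]

/-- the symplectic form -/
noncomputable def om (ι : Type) [Fintype ι] :
    LinearMap.BilinForm (ZMod 2) ((ι → ZMod 2) × (ι → ZMod 2)) :=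
  LinearMap.mk₂ (ZMod 2) (fun a b => ∑ i, a.1 i * b.2 i - ∑ i, b.1 i * a.2 i)
    (fun a a' b => by
      simp only [Prod.fst_add, Prod.snd_add, Pi.add_apply, add_mul, mul_add, sum_add_distrib]
      ring)
    (fun c a b => by
      simp only [Prod.smul_fst, Prod.smul_snd, Pi.smul_apply, smul_eq_mul, mul_sub, mul_sum]
      congr 1
      · exact sum_congr rfl fun i _ => by ring
      · exact sum_congr rfl fun i _ => by ring)
    (fun a b b' => by
      simp only [Prod.fst_add, Prod.snd_add, Pi.add_apply, add_mul, mul_add, sum_add_distrib]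
      ring)
    (fun c a b => by
      simp only [Prod.smul_fst, Prod.smul_snd, Pi.smul_apply, smul_eq_mul, mul_sub, mul_sum]
      congr 1
      · exact sum_congr rfl fun i _ => by ring
      · exact sum_congr rfl fun i _ => by ring)

lemma om_apply (a b : (ι → ZMod 2) × (ι → ZMod 2)) :
    om ι a b = ∑ i, a.1 i * b.2 i - ∑ i, b.1 i * a.2 i := rfl

lemma om_ker : (om ι).ker = ⊥ := by
  rw [LinearMap.ker_eq_bot']
  intro a ha
  have h : ∀ b, om ι a b = 0 := fun b => by rw [ha]; rfl
  refine Prod.ext ?_ ?_
  · funext i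
    have h1 := h (0, Pi.single i 1)
    rw [om_apply] at h1
    simpa [Pi.single_apply] using h1
  · funext i
    have h1 := h (Pi.single i 1, 0)
    rw [om_apply] at h1
    simpa [Pi.single_apply] using h1

/-- pairwise orthogonal vectors -/
lemma iso_card (S : Finset ((ι → ZMod 2) × (ι → ZMod 2)))
    (h : ∀ a ∈ S, ∀ b ∈ S, ∑ i, a.1 i * b.2 i = ∑ i, b.1 i * a.2 i) :
    S.card ≤ 2 ^ Fintype.card ι := by
  classical
  set W := Submodule.span (ZMod 2) (S : Set ((ι → ZMod 2) × (ι → ZMod 2))) with hW
  have h1 : W ≤ (om ι).orthogonal W := by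
    rw [hW, Submodule.span_le]
    intro b hb
    rw [SetLike.mem_coe, LinearMap.BilinForm.mem_orthogonal_iff]
    intro a ha
    show om ι a b = 0
    induction ha using Submodule.span_induction with
    | mem x hx =>
      rw [om_apply, h x (mem_coe.1 hx) b (mem_coe.1 hb), sub_self]
    | zero => simp
    | add x y _ _ hx hy => rw [map_add, LinearMap.add_apply, hx, hy, add_zero]
    | smul c x _ hx => rw [map_smul, LinearMap.smul_apply, hx, smul_zero]
  have h2 := LinearMap.BilinForm.finrank_add_finrank_orthogonal' (B := om ι) W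
  rw [om_ker, inf_bot_eq, finrank_bot, add_zero] at h2
  have h3 := Submodule.finrank_mono h1
  have h4 : Module.finrank (ZMod 2) ((ι → ZMod 2) × (ι → ZMod 2)) = 2 * Fintype.card ι := by
    rw [Module.finrank_prod, Module.finrank_fintype_fun_eq_card]
    ring
  rw [h4] at h2
  have h5 : Module.finrank (ZMod 2) W ≤ Fintype.card ι := by omega
  have h6 : Fintype.card W = 2 ^ Module.finrank (ZMod 2) W := by
    rw [Module.card_eq_pow_finrank (K := ZMod 2), ZMod.card]
  have h7 : S.card ≤ Fintype.card W := by
    rw [← Fintype.card_coe]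
    exact Fintype.card_le_of_injective
      (fun x : S => (⟨x.1, Submodule.subset_span x.2⟩ : W)) (fun x y hxy => by
        have := congrArg Subtype.val hxy
        exact Subtype.ext this)
  rw [h6] at h7
  exact h7.trans (Nat.pow_le_pow_right (by norm_num) h5)

end iso

/-- the vector of the bits -/
def emb {k : ℕ} (v : VV k) (i : Fin k × Bool) : ZMod 2 :=
  if i.2 = true then (if (v i.1).1 = true then 1 else 0) else (if (v i.1).2 = true then 1 else 0)

lemma emb_inj {k : ℕ} {v w : VV k} (h : emb v = emb w) : v = w := by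
  funext m
  have h1 := congrFun h (m, true)
  have h2 := congrFun h (m, false)
  unfold emb at h1 h2
  simp only [if_true, Bool.false_eq_true, if_false] at h1 h2
  refine Prod.ext ?_ ?_
  · cases hv : (v m).1 <;> cases hw : (w m).1 <;> simp_all
  · cases hv : (v m).2 <;> cases hw : (w m).2 <;> simp_all

lemma bf_emb {k : ℕ} (v x : VV k) : bf v x = ∑ i, emb v i * emb x i := by
  unfold bf
  rw [Fintype.sum_prod_type]
  refine sum_congr rfl fun m _ => ?_
  rw [Fintype.sum_bool]
  unfold emb lf
  simp only [if_true, Bool.false_eq_true, if_false]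
  cases (v m).1 <;> cases (v m).2 <;> cases (x m).1 <;> cases (x m).2 <;> simp

/-- the largest unlinked set -/
theorem combK (J : Type) [Fintype J] [DecidableEq J] (k : ℕ) (U : Finset (IK J k))
    (hU : ∀ i ∈ U, ∀ j ∈ U, LK i j = LK j i) :
    ∑ _i ∈ U, ((1 / 4 : ℝ) ^ k) ≤ Fintype.card J := by
  classical
  have hbf : ∀ i ∈ U, ∀ j ∈ U, bf i.1.2.1 j.1.2.2 = bf j.1.2.1 i.1.2.2 := by
    intro i hi j hj
    have h := hU i hi j hj
    unfold LK at h
    have hb : ∀ a : ZMod 2, a = 0 ∨ a = 1 := by decide
    rcases hb (bf i.1.2.1 j.1.2.2) with h1 | h1 <;> rcases hb (bf j.1.2.1 i.1.2.2) with h2 | h2 <;>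
      rw [h1, h2] at h ⊢
    · exact absurd h (by decide)
    · exact absurd h (by decide)
  have hfib : ∀ j : J, (U.filter (fun i => i.1.1 = j)).card ≤ 4 ^ k := by
    intro j
    set f : IK J k → (Fin k × Bool → ZMod 2) × (Fin k × Bool → ZMod 2) :=
      fun i => (emb i.1.2.1, emb i.1.2.2) with hf
    have hinj : Set.InjOn f (U.filter (fun i => i.1.1 = j)) := by
      intro i hi i' hi' h
      rw [mem_coe, mem_filter] at hi hi'
      apply Subtype.ext
      refine Prod.ext (hi.2.trans hi'.2.symm) (Prod.ext ?_ ?_)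
      · exact emb_inj (congrArg Prod.fst h)
      · exact emb_inj (congrArg Prod.snd h)
    rw [← card_image_of_injOn hinj]
    refine (iso_card _ ?_).trans (le_of_eq ?_)
    · intro a ha b hb
      obtain ⟨i, hi, rfl⟩ := mem_image.1 ha
      obtain ⟨i', hi', rfl⟩ := mem_image.1 hb
      simp only [hf]
      rw [← bf_emb, ← bf_emb]
      exact hbf i (mem_filter.1 hi).1 i' (mem_filter.1 hi').1
    · rw [Fintype.card_prod, Fintype.card_fin, Fintype.card_bool, mul_comm, pow_mul]
      norm_num
  rw [sum_const, nsmul_eq_mul]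
  have h1 : U.card ≤ Fintype.card J * 4 ^ k := by
    rw [Finset.card_eq_sum_card_fiberwise (f := fun i : IK J k => i.1.1) (t := univ)
      (fun _ _ => mem_coe.2 (mem_univ _))]
    refine (sum_le_sum fun j _ => hfib j).trans ?_
    rw [sum_const, card_univ, smul_eq_mul]
  have h2 : (U.card : ℝ) ≤ (Fintype.card J : ℝ) * 4 ^ k := by exact_mod_cast h1
  calc (U.card : ℝ) * (1 / 4) ^ k ≤ ((Fintype.card J : ℝ) * 4 ^ k) * (1 / 4) ^ k :=
        mul_le_mul_of_nonneg_right h2 (by positivity)
    _ = Fintype.card J := by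
        rw [mul_assoc, ← mul_pow]
        norm_num

end Pool.Agent.V7H45.TM
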