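import Pool.Agent.W262.RK.F4c
import Pool.Agent.W358.RK2.SVR
import Pool.Agent.W358.RK2.GR
import Pool.Agent.V7H45.TM.NTb
import Pool.Agent.V7H45.TM.Comb

/-!
# The `k`-th moment of `2 ^ rank` in thin families of quadratic twists
-/

set_option autoImplicit false

namespace Pool.Agent.V7H45.TM

open Finset Pool.Agent.W262.RK

lemma LK_self {J : Type} {k : ℕ} (i : IK J k) : LK i i = false := by
  unfold LK
  rw [i.2]
  decide

lemma kk_ne {c : Fin 3 → ℤ} (hc0 : ∀ i, c i ≠ 0) (v x : Bool × Bool) : kk c v x ≠ 0 := by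
  have h1 : hc c v ≠ 0 := by
    unfold hc
    split_ifs
    · exact hc0 _
    · exact mul_ne_zero (hc0 _) (hc0 _)
    · exact hc0 _
    · exact one_ne_zero
  have h2 : gc c v ≠ 0 := by
    unfold gc
    split_ifs
    · exact mul_ne_zero (hc0 _) (hc0 _)
    · exact neg_ne_zero.2 (hc0 _)
    · exact neg_ne_zero.2 (hc0 _)
    · exact one_ne_zero
  unfold kk
  refine mul_ne_zero ?_ ?_
  · split_ifs
    · exact h1
    · exact one_ne_zero
  · split_ifs
    · exact h2
    · exact one_ne_zero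

/-- the average of `NBk` is bounded by `(log y) ^ |J|` -/
theorem maK (J : Type) [Fintype J] [DecidableEq J] (k : ℕ) (hk : 1 ≤ k) (κ : J → Fin 3 → ℤ)
    (c : ℕ) (hκ : ∀ j i, κ j i ≠ 0) :
    ∃ z0 : ℕ, ∀ z, z0 ≤ z → ∃ C : ℝ, ∀ y, z < y →
      ∑ s ∈ Tup J z y, NBk k (fun _ => 3) κ s * ∏ j, gw 1 c (s j) ≤
        C * (Real.log y) ^ (Fintype.card J) := by
  have hw : (0 : ℝ) < (1 / 4 : ℝ) ^ k ∧ (1 / 4 : ℝ) ^ k ≤ 1 / 2 := by
    refine ⟨by positivity, ?_⟩
    calc (1 / 4 : ℝ) ^ k ≤ (1 / 4 : ℝ) ^ 1 :=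
          pow_le_pow_of_le_one (by norm_num) (by norm_num) hk
      _ ≤ 1 / 2 := by norm_num
  obtain ⟨z0, hz0⟩ := at_thm (IK J k) (fun _ => (1 / 4 : ℝ) ^ k) LK (κK κ) c
    ((Fintype.card J : ℕ) : ℝ) (fun _ => hw) LK_self
    (fun i => prod_ne_zero_iff.2 fun m _ => kk_ne (hκ _) _ _) (combK J k)
  refine ⟨max z0 (2 + ∑ j, ∑ k, (κ j k).natAbs), fun z hz => ?_⟩
  obtain ⟨C, hC⟩ := hz0 z (le_trans (le_max_left _ _) hz)
  refine ⟨C, fun y hy => ?_⟩
  have hz2 : 2 + ∑ j, ∑ k, (κ j k).natAbs ≤ z := le_trans (le_max_right _ _) hz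
  rw [expK J k κ c z y hκ (fun j k => by
    have h1 := single_le_sum (f := fun k => (κ j k).natAbs) (fun _ _ => Nat.zero_le _) (mem_univ k)
    have h2 := single_le_sum (f := fun j => ∑ k, (κ j k).natAbs) (fun _ _ => Nat.zero_le _)
      (mem_univ j)
    omega)]
  refine (le_trans (le_abs_self _) (hC y hy)).trans (le_of_eq ?_)
  rw [Real.rpow_natCast]

variable {J : Type} [Fintype J] [DecidableEq J]

/-- the `k`-th moment for positive parameters, without the zeros of the forms -/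
theorem avgK (r : ℕ) (hr : 1 ≤ r) (a : Fin 3 → ℤ) (α β : J → ℤ) (ha : ∀ k, a k ≠ 0)
    (hα : ∀ j, α j ≠ 0) (hR : ∀ j l, j ≠ l → Res α β j l ≠ 0) (ha3 : a 0 - a 1 = a 2) :
    ∃ C : ℝ, ∀ X : ℕ, ∑ t ∈ (Icc 1 X).filter (fun t : ℕ => ∀ j, ff α β t j ≠ 0),
      ((2 : ℝ) ^ Module.finrank ℤ
        (EAB (F4 (fun _ => 3) a α β t 0) (F4 (fun _ => 3) a α β t 1)).toAffine.Point) ^ r ≤
          C * X := by
  classical
  set cls : J → Fin 4 := fun _ => 3 with hcls
  have hF : ∀ t : ℤ, F4 cls a α β t 0 - F4 cls a α β t 1 = F4 cls a α β t 2 := by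
    intro t
    have hfs : ∀ k : Fin 3, fs cls k = univ := by
      intro k
      unfold fs
      simp [hcls]
    unfold F4
    rw [hfs, hfs, hfs, ← ha3]
    ring
  set κ := kap4 cls a α β with hκdef
  have hκ0 : ∀ j k, κ j k ≠ 0 := kap4_ne cls a α β hα ha hR
  set N := Fintype.card J with hN
  obtain ⟨z0, hz0⟩ := maK J r hr κ N hκ0
  set z : ℕ := z0 + (2 * N + 2) + ∑ k, (a k).natAbs + ∑ j, (α j).natAbs +
    ∑ j, ∑ l, (Res α β j l).natAbs + ∑ j, ∑ k, (κ j k).natAbs with hz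
  have hB : Big4 a α β z := by
    refine ⟨⟨by omega, fun p hp hzp => ⟨fun j h => ?_, fun j l hjl h => ?_⟩⟩,
      fun p hp hzp k h => ?_⟩
    · have h1 := Nat.le_of_dvd (Int.natAbs_pos.2 (hα j)) (Int.natCast_dvd.1 h)
      have h2 := single_le_sum (f := fun j => (α j).natAbs) (fun _ _ => Nat.zero_le _) (mem_univ j)
      omega
    · have h1 := Nat.le_of_dvd (Int.natAbs_pos.2 (hR j l hjl)) (Int.natCast_dvd.1 h)
      have h2 := single_le_sum (f := fun l => (Res α β j l).natAbs) (fun _ _ => Nat.zero_le _)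
        (mem_univ l)
      have h3 := single_le_sum (f := fun j => ∑ l, (Res α β j l).natAbs) (fun _ _ => Nat.zero_le _)
        (mem_univ j)
      omega
    · have h1 := Nat.le_of_dvd (Int.natAbs_pos.2 (ha k)) (Int.natCast_dvd.1 h)
      have h2 := single_le_sum (f := fun k => (a k).natAbs) (fun _ _ => Nat.zero_le _) (mem_univ k)
      omega
  have hκz : ∀ j k, (κ j k).natAbs ≤ z := by
    intro j k
    have h1 := single_le_sum (f := fun k => (κ j k).natAbs) (fun _ _ => Nat.zero_le _) (mem_univ k)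
    have h2 := single_le_sum (f := fun j => ∑ k, (κ j k).natAbs) (fun _ _ => Nat.zero_le _)
      (mem_univ j)
    omega
  have hz2 : 2 ≤ z := by omega
  obtain ⟨C', hC'⟩ := hz0 z (by omega)
  obtain ⟨C, K, y0, hC0, hK1, hcn⟩ :=
    Pool.Agent.W372.RK2.cnt4_of Pool.Agent.W358.RK2.svr J α β cls z hB.1
  set y1 : ℕ := y0 + ∑ j, ((α j).natAbs + (β j).natAbs) + 1 with hy1
  refine nt (b := (4 : ℝ) ^ r) (one_le_pow₀ (by norm_num)) Pool.Agent.W358.RK2.gr α β z
        (NBk r cls κ) (fun t => ((2 : ℝ) ^ Module.finrank ℤ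
        (EAB (F4 cls a α β t 0) (F4 cls a α β t 1)).toAffine.Point) ^ r) (C * (4 ^ (z + 2)) ^ r) C'
        ((16 ^ N) ^ r) K y1 hB.1 (fun s => ?_) (fun t => by positivity) (by positivity)
        (one_le_pow₀ (one_le_pow₀ (by norm_num))) hK1
        (fun y hy s e hse => subbk r cls κ z y hz2 hκ0 hκz s e hse)
        hC' ?_
  · unfold NBk
    exact mul_nonneg (by positivity) (sum_nonneg fun _ _ => by positivity)
  intro X y Y k hy0 hzy hyK hk s hs v hv u hu h8
  have hy00 : y0 ≤ y := by omega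
  have hyX : y ≤ X := le_trans (Nat.le_self_pow (by omega) y) hyK
  have hX1 : 1 ≤ X := by omega
  set S := (Icc 1 X).filter (fun t : ℕ => (∀ j, ff α β t j ≠ 0) ∧ s1 α β z y t = s ∧
    s2 α β z y t = v ∧ ∀ j, (u j : ℤ) ∣ ff α β t j) with hS
  set g : Finset ℕ → ℝ := fun E => (NL (∏ j, s j) (LLs cls κ s E) : ℝ) ^ r with hg
  have hg0 : ∀ E, 0 ≤ g E := fun E => by positivity
  have h1 : ∀ t ∈ S, ((2 : ℝ) ^ Module.finrank ℤ
      (EAB (F4 cls a α β t 0) (F4 cls a α β t 1)).toAffine.Point) ^ r ≤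
      (4 ^ (z + 2)) ^ r * ((16 ^ N) ^ r) ^ k * ((4 : ℝ) ^ r) ^ (∑ j, (v j).primeFactors.card) *
        g (neg3 cls α β t s) := by
    intro t ht
    rw [hS, mem_filter] at ht
    obtain ⟨ht1, ht0, hts, htv, _⟩ := ht
    have hr4 := rank4 Pool.Agent.W214.RK2.desc4 Pool.Agent.W342.RK2.xcl Pool.Agent.W342.RK2.locl
      (X := X) (y := y) (k := k) hB ha hκ0 hκz (hF t) ht0 (fun j => by
        unfold ff
        have h3 := Int.natAbs_add_le (α j * (t : ℤ)) (β j)
        rw [Int.natAbs_mul, Int.natAbs_natCast] at h3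
        have h4 := single_le_sum (f := fun j => (α j).natAbs + (β j).natAbs)
          (fun _ _ => Nat.zero_le _) (mem_univ j)
        have h5 := (mem_Icc.1 ht1).2
        have h6 : (α j).natAbs + (β j).natAbs ≤ X := by omega
        nlinarith [Nat.zero_le (α j).natAbs, Nat.zero_le (β j).natAbs,
          Nat.mul_le_mul_left (α j).natAbs h5, Nat.mul_le_mul_right X h6,
          Nat.le_mul_of_pos_right (β j).natAbs (show 0 < X by omega)]) hX1 (by omega) hk
    rw [hts, htv] at hr4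
    have hr5 : ((2 : ℝ) ^ Module.finrank ℤ
        (EAB (F4 cls a α β t 0) (F4 cls a α β t 1)).toAffine.Point) ≤
        4 ^ (z + 2) * (16 ^ N) ^ k * 4 ^ (∑ j, (v j).primeFactors.card) *
          (NL (∏ j, s j) (LLs cls κ s (neg3 cls α β t s)) : ℝ) := by
      exact_mod_cast hr4
    calc _ ≤ (4 ^ (z + 2) * (16 ^ N) ^ k * 4 ^ (∑ j, (v j).primeFactors.card) *
          (NL (∏ j, s j) (LLs cls κ s (neg3 cls α β t s)) : ℝ)) ^ r :=
          pow_le_pow_left₀ (by positivity) hr5 r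
      _ = _ := by
          simp only [hg, mul_pow]
          congr 2
          · congr 1
            rw [← pow_mul, ← pow_mul, ← pow_mul, ← pow_mul]
            congr 1
            ring
          · rw [← pow_mul, ← pow_mul, mul_comm]
  have hneg : ∀ t ∈ S, neg3 cls α β t s ∈ (P3 cls s).powerset := by
    intro t _
    rw [mem_powerset]
    exact filter_subset _ _
  have h2 : ∑ t ∈ S, g (neg3 cls α β t s) =
      ∑ E ∈ (P3 cls s).powerset, ((S.filter (fun t : ℕ => neg3 cls α β t s = E)).card : ℝ) * g E := by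
    rw [← sum_fiberwise_of_maps_to hneg]
    refine sum_congr rfl fun E _ => ?_
    rw [← nsmul_eq_mul, ← sum_const]
    refine sum_congr rfl fun t ht => ?_
    rw [(mem_filter.1 ht).2]
  set Q : ℝ := C * X * (1 / 2) ^ (P3 cls s).card * (∏ j, gw 1 N (s j)) *
        (∏ j, gw 1 N (v j) / v j) * (∏ j, 1 / (u j : ℝ)) / (Real.log y) ^ N with hQ
  have h3 : ∀ E ∈ (P3 cls s).powerset,
      ((S.filter (fun t : ℕ => neg3 cls α β t s = E)).card : ℝ) * g E ≤ Q * g E := by
    intro E _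
    refine mul_le_mul_of_nonneg_right ?_ (hg0 E)
    refine le_trans ?_ (hcn X y Y hy00 hzy hyK s hs v hv u hu h8 E)
    have h4 : S.filter (fun t : ℕ => neg3 cls α β t s = E) ⊆
        (Icc 1 X).filter (fun t : ℕ => s1 α β z y t = s ∧ s2 α β z y t = v ∧
          (∀ j, (u j : ℤ) ∣ ff α β t j) ∧ neg3 cls α β t s = E) := by
      intro t ht
      rw [mem_filter, hS, mem_filter] at ht
      rw [mem_filter]
      exact ⟨ht.1.1, ht.1.2.2.1, ht.1.2.2.2.1, ht.1.2.2.2.2, ht.2⟩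
    exact_mod_cast card_le_card h4
  calc ∑ t ∈ S, ((2 : ℝ) ^ Module.finrank ℤ
          (EAB (F4 cls a α β t 0) (F4 cls a α β t 1)).toAffine.Point) ^ r
      ≤ ∑ t ∈ S, (4 ^ (z + 2)) ^ r * ((16 ^ N) ^ r) ^ k *
          ((4 : ℝ) ^ r) ^ (∑ j, (v j).primeFactors.card) *
          g (neg3 cls α β t s) := sum_le_sum h1
    _ = (4 ^ (z + 2)) ^ r * ((16 ^ N) ^ r) ^ k *
          ((4 : ℝ) ^ r) ^ (∑ j, (v j).primeFactors.card) *
          ∑ E ∈ (P3 cls s).powerset,
            ((S.filter (fun t : ℕ => neg3 cls α β t s = E)).card : ℝ) * g E := by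
        rw [← mul_sum, h2]
    _ ≤ (4 ^ (z + 2)) ^ r * ((16 ^ N) ^ r) ^ k *
          ((4 : ℝ) ^ r) ^ (∑ j, (v j).primeFactors.card) *
          ∑ E ∈ (P3 cls s).powerset, Q * g E :=
        mul_le_mul_of_nonneg_left (sum_le_sum h3) (by positivity)
    _ = _ := by
        have e1 : NBk r cls κ s =
            (1 / 2) ^ (P3 cls s).card * ∑ E ∈ (P3 cls s).powerset, g E := rfl
        have e2 : (∏ j, ((4 : ℝ) ^ r) ^ (v j).primeFactors.card * (gw 1 N (v j) / v j)) =
            ((4 : ℝ) ^ r) ^ (∑ j, (v j).primeFactors.card) * ∏ j, (gw 1 N (v j) / v j) := by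
          rw [prod_mul_distrib, prod_pow_eq_pow_sum]
        rw [← mul_sum, e1, e2, hQ]
        ring

end Pool.Agent.V7H45.TM
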