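import Pool.Agent.W762.RK2.EXP4b
import Pool.Agent.V7H45.TM.SubK

/-!
# Expansion of the `k`-th moment of the Selmer count into symbols

All the forms are in the class `3` (twists). A prime has a type `(v, χ)`, where `v` and `χ` are
vectors of `k` pairs of bits with `χ · v = 0`; the average over the signs of the `k`-th power of the
local count is a sum of products of Jacobi symbols.
-/

set_option autoImplicit false

namespace Pool.Agent.V7H45.TM

open Finset Pool.Agent.W262.RK Pool.Agent.W108.RK Pool.Agent.W762.RK2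

/-- vectors of `k` pairs of bits -/
abbrev VV (k : ℕ) : Type := Fin k → Bool × Bool

/-- the pairing of two pairs of bits -/
def lf (v x : Bool × Bool) : ZMod 2 :=
  (if (x.1 && v.1) = true then 1 else 0) + (if (x.2 && v.2) = true then 1 else 0)

/-- the pairing -/
def bf {k : ℕ} (v x : VV k) : ZMod 2 := ∑ m, lf (v m) (x m)

/-- the index set `(j, v, χ)` with `χ · v = 0` -/
def IK (J : Type) (k : ℕ) : Type := {i : J × VV k × VV k // bf i.2.1 i.2.2 = 0}

instance (J : Type) [Fintype J] [DecidableEq J] (k : ℕ) : Fintype (IK J k) := by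
  unfold IK; infer_instance

instance (J : Type) [DecidableEq J] (k : ℕ) : DecidableEq (IK J k) :=
  fun a b => decidable_of_iff (a.1 = b.1) Subtype.ext_iff.symm

/-- the symbol `(d i / d i')` occurs if `χ_{i'} · v_i = 1` -/
def LK {J : Type} {k : ℕ} (i i' : IK J k) : Bool := decide (bf i.1.2.1 i'.1.2.2 = 1)

/-- the constant of the first symbol -/
def hc (c : Fin 3 → ℤ) (v : Bool × Bool) : ℤ :=
  if v = (true, false) then c 0 else if v = (false, true) then c 0 * c 1
    else if v = (true, true) then c 1 else 1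

/-- the constant of the second symbol -/
def gc (c : Fin 3 → ℤ) (v : Bool × Bool) : ℤ :=
  if v = (true, false) then c 0 * c 2 else if v = (false, true) then -c 0
    else if v = (true, true) then -c 2 else 1

/-- the constant -/
def kk (c : Fin 3 → ℤ) (v x : Bool × Bool) : ℤ :=
  (if x.1 = true then hc c v else 1) * (if x.2 = true then gc c v else 1)

/-- the constants -/
def κK {J : Type} {k : ℕ} (κ : J → Fin 3 → ℤ) (i : IK J k) : ℤ :=
  ∏ m, kk (κ i.1.1) (i.1.2.1 m) (i.1.2.2 m)

/-- the power of a number with square one -/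
def pw (x : ℝ) (a : ZMod 2) : ℝ := if a = 1 then x else 1

lemma pw_add {x : ℝ} (hx : x * x = 1) (a b : ZMod 2) : pw x (a + b) = pw x a * pw x b := by
  unfold pw
  have h : ∀ a : ZMod 2, a = 0 ∨ a = 1 := by decide
  rcases h a with rfl | rfl <;> rcases h b with rfl | rfl
  · simp
  · simp
  · simp
  · rw [show (1 : ZMod 2) + 1 = 0 by decide]
    simp [hx]

lemma pw_sum {ι : Type} {x : ℝ} (hx : x * x = 1) (s : Finset ι) (f : ι → ZMod 2) :
    pw x (∑ m ∈ s, f m) = ∏ m ∈ s, pw x (f m) := by
  classical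
  induction s using Finset.induction_on with
  | empty => simp [pw]
  | insert a s ha ih => rw [sum_insert ha, prod_insert ha, pw_add hx, ih]

lemma pw_lf {x : ℝ} (hx : x * x = 1) (v y : Bool × Bool) :
    pw x (lf v y) = (if y.1 = true then (if v.1 = true then x else 1) else 1) *
      (if y.2 = true then (if v.2 = true then x else 1) else 1) := by
  obtain ⟨v1, v2⟩ := v
  obtain ⟨y1, y2⟩ := y
  unfold lf
  rw [pw_add hx]
  cases v1 <;> cases v2 <;> cases y1 <;> cases y2 <;> simp [pw]

section loc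

/-- the pairing of one copy as a bit -/
def lb (v x : Bool × Bool) : Bool := xor (x.1 && v.1) (x.2 && v.2)

lemma lf_lb : ∀ v x : Bool × Bool, lf v x = 1 ↔ lb v x = true := by decide

lemma pw_lb (t : ℝ) (v x : Bool × Bool) : pw t (lf v x) = if lb v x = true then t else 1 := by
  unfold pw
  simp only [lf_lb]

/-- the term of one copy -/
noncomputable def T1 (c : Fin 3 → ℤ) (neg : Bool) (p : ℕ) (v x : Bool × Bool) (h g : Bool) : ℝ :=
  1 / 4 * (if (neg && lb v x) = true then -1 else 1) * Jr (kk c v x) p *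
    ((if x.1 = true then sg h else 1) * (if x.2 = true then sg g else 1))

lemma loc1 (c : Fin 3 → ℤ) {p : ℕ} (hp : p.Prime) (hk : ∀ i, ¬ (p : ℤ) ∣ c i) (neg : Bool)
    (v : Bool × Bool) (h g : Bool) :
    ind (LL 3 c neg p v.1 v.2 h g) = ∑ x : Bool × Bool, T1 c neg p v x h g := by
  have hmul : ∀ i j, ¬ (p : ℤ) ∣ c i * c j := by
    intro i j hd
    rcases (Nat.prime_iff_prime_int.1 hp).dvd_or_dvd hd with h' | h'
    · exact hk i h'
    · exact hk j h'
  have hneg : ∀ i, ¬ (p : ℤ) ∣ -c i := fun i h' => hk i ((dvd_neg).1 h')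
  have e0 : Jr (c 0) p = sg (sg0 p (c 0)) := Jr_dvd_ne hp (hk 0)
  have e1 : Jr (c 0 * c 2) p = sg (sg0 p (c 0 * c 2)) := Jr_dvd_ne hp (hmul 0 2)
  have e2 : Jr (c 0 * c 1) p = sg (sg0 p (c 0 * c 1)) := Jr_dvd_ne hp (hmul 0 1)
  have e3 : Jr (-c 0) p = sg (sg0 p (-c 0)) := Jr_dvd_ne hp (hneg 0)
  have e4 : Jr (c 1) p = sg (sg0 p (c 1)) := Jr_dvd_ne hp (hk 1)
  have e5 : Jr (-c 2) p = sg (sg0 p (-c 2)) := Jr_dvd_ne hp (hneg 2)
  have e6 : Jr 1 p = 1 := Jr_one_left p
  have hH : Jr (hc c v) p = sg (if v = (true, false) then sg0 p (c 0) else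
      if v = (false, true) then sg0 p (c 0 * c 1) else
      if v = (true, true) then sg0 p (c 1) else false) := by
    unfold hc
    split_ifs
    · exact e0
    · exact e2
    · exact e4
    · rw [e6]; simp [sg]
  have hG : Jr (gc c v) p = sg (if v = (true, false) then sg0 p (c 0 * c 2) else
      if v = (false, true) then sg0 p (-c 0) else
      if v = (true, true) then sg0 p (-c 2) else false) := by
    unfold gc
    split_ifs
    · exact e1
    · exact e3
    · exact e5
    · rw [e6]; simp [sg]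
  have hK : ∀ x : Bool × Bool, Jr (kk c v x) p =
      (if x.1 = true then Jr (hc c v) p else 1) * (if x.2 = true then Jr (gc c v) p else 1) := by
    intro x
    unfold kk
    rw [Jr_mul_left]
    congr 1
    · split_ifs
      · rfl
      · exact e6
    · split_ifs
      · rfl
      · exact e6
  set HX : Bool := if v = (true, false) then sg0 p (c 0) else
      if v = (false, true) then sg0 p (c 0 * c 1) else
      if v = (true, true) then sg0 p (c 1) else false with hHX
  set GX : Bool := if v = (true, false) then sg0 p (c 0 * c 2) else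
      if v = (false, true) then sg0 p (-c 0) else
      if v = (true, true) then sg0 p (-c 2) else false with hGX
  have hLL : LL 3 c neg p v.1 v.2 h g ↔ (h = xor (v.1 && neg) HX ∧ g = xor (v.2 && neg) GX) := by
    unfold LL
    rw [if_neg (by decide), if_neg (by decide), if_neg (by decide), hHX, hGX]
    obtain ⟨v1, v2⟩ := v
    cases v1 <;> cases v2 <;> simp
  have hind : ind (LL 3 c neg p v.1 v.2 h g) =
      (1 + sg h * (sg (v.1 && neg) * sg HX)) / 2 * ((1 + sg g * (sg (v.2 && neg) * sg GX)) / 2) := by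
    have hh : ∀ (P Q : Prop), (P ↔ Q) → ind P = ind Q := fun P Q hPQ => by rw [propext hPQ]
    rw [hh _ _ hLL]
    generalize (v.1 && neg) = w1
    generalize (v.2 && neg) = w2
    unfold ind
    cases h <;> cases g <;> cases w1 <;> cases w2 <;> cases HX <;> cases GX <;>
      simp [sg]
  rw [hind, Fintype.sum_prod_type]
  simp only [Fintype.sum_bool, T1, hK, hH, hG]
  have s0 : sg false = 1 := by simp [sg]
  have s1 : sg true = -1 := by simp [sg]
  generalize sg h = A
  generalize sg g = B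
  generalize sg HX = P
  generalize sg GX = Q
  clear_value HX GX
  obtain ⟨v1, v2⟩ := v
  cases v1 <;> cases v2 <;> cases neg <;>
    simp only [lb, s0, s1, Bool.and_true, Bool.and_false, Bool.xor_true, Bool.xor_false,
      Bool.not_false, if_true, Bool.false_eq_true, if_false, Bool.xor_self] <;> ring

/-- the local identity for `k` copies -/
lemma locK {k : ℕ} (c : Fin 3 → ℤ) {p : ℕ} (hp : p.Prime) (hk : ∀ i, ¬ (p : ℤ) ∣ c i)
    (v : VV k) (h g : Fin k → Bool) :
    (∏ m, ind (LL 3 c true p (v m).1 (v m).2 (h m) (g m)) +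
      ∏ m, ind (LL 3 c false p (v m).1 (v m).2 (h m) (g m))) / 2 =
    ∑ x : VV k, if bf v x = 0 then (1 / 4 : ℝ) ^ k * Jr (∏ m, kk c (v m) (x m)) p *
      ∏ m, ((if (x m).1 = true then sg (h m) else 1) * (if (x m).2 = true then sg (g m) else 1))
        else 0 := by
  have h1 : ∀ neg, ∏ m, ind (LL 3 c neg p (v m).1 (v m).2 (h m) (g m)) =
      ∑ x : VV k, ∏ m, T1 c neg p (v m) (x m) (h m) (g m) := by
    intro neg
    rw [prod_congr rfl fun m _ => loc1 c hp hk neg (v m) (h m) (g m), Finset.prod_univ_sum,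
      Fintype.piFinset_univ]
  rw [h1, h1, ← sum_add_distrib, sum_div]
  refine sum_congr rfl fun x _ => ?_
  have h2 : ∀ neg, ∏ m, T1 c neg p (v m) (x m) (h m) (g m) =
      (if neg = true then pw (-1) (bf v x) else 1) * ((1 / 4 : ℝ) ^ k *
        Jr (∏ m, kk c (v m) (x m)) p * ∏ m, ((if (x m).1 = true then sg (h m) else 1) *
          (if (x m).2 = true then sg (g m) else 1))) := by
    intro neg
    have e1 : ∏ m, (if (neg && lb (v m) (x m)) = true then (-1 : ℝ) else 1) =
        if neg = true then pw (-1) (bf v x) else 1 := by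
      cases neg
      · simp
      · rw [if_pos rfl]
        unfold bf
        rw [pw_sum (by norm_num)]
        refine prod_congr rfl fun m _ => ?_
        rw [pw_lb, Bool.true_and]
    rw [← e1, Jr_prod_left]
    have e2 : (1 / 4 : ℝ) ^ k = ∏ _m : Fin k, (1 / 4 : ℝ) := by
      rw [prod_const, card_univ, Fintype.card_fin]
    rw [e2, ← prod_mul_distrib, ← prod_mul_distrib, ← prod_mul_distrib]
    refine prod_congr rfl fun m _ => ?_
    unfold T1
    ring
  rw [h2, h2]
  have hb : ∀ a : ZMod 2, a = 0 ∨ a = 1 := by decide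
  rcases hb (bf v x) with h3 | h3
  · simp [h3, pw]
  · simp [h3, pw]

end loc

section big

variable {J : Type} [Fintype J] [DecidableEq J] {z y k : ℕ}

/-- the bits -/
def vv (x : Option (J × VV k)) : VV k := x.elim (fun _ => (false, false)) fun a => a.2

/-- the divisors -/
def DK (ξ : Pr z y → Option (J × VV k)) (m : Fin k) : ℕ × ℕ :=
  (nb fun p => (vv (ξ p) m).1, nb fun p => (vv (ξ p) m).2)

/-- the tuple -/
def SK (ξ : Pr z y → Option (J × VV k)) : J → ℕ := Dl fun p => (ξ p).map Prod.fst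

lemma DK_dvd1 (ξ : Pr z y → Option (J × VV k)) (m : Fin k) : (DK ξ m).1 ∣ ∏ j, SK ξ j := by
  unfold SK DK
  rw [prod_Dl]
  refine nb_dvd fun p hp => ?_
  cases h : ξ p with
  | none => rw [h] at hp; exact absurd hp (by simp [vv])
  | some a => rfl

lemma DK_dvd2 (ξ : Pr z y → Option (J × VV k)) (m : Fin k) : (DK ξ m).2 ∣ ∏ j, SK ξ j := by
  unfold SK DK
  rw [prod_Dl]
  refine nb_dvd fun p hp => ?_
  cases h : ξ p with
  | none => rw [h] at hp; exact absurd hp (by simp [vv])
  | some a => rfl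

lemma prod_SK_ne (ξ : Pr z y → Option (J × VV k)) : ∏ j, SK ξ j ≠ 0 := by
  unfold SK
  rw [prod_Dl]
  exact nb_ne_zero _

lemma sum_bigK (F : (J → ℕ) → (Fin k → ℕ × ℕ) → ℝ) :
    ∑ s ∈ Tup J z y, ∑ d ∈ Fintype.piFinset
        (fun _ : Fin k => (∏ j, s j).divisors ×ˢ (∏ j, s j).divisors), F s d =
      ∑ ξ : Pr z y → Option (J × VV k), F (SK ξ) (DK ξ) := by
  rw [Finset.sum_sigma']
  symm
  refine Finset.sum_bij (fun ξ _ => ⟨SK ξ, DK ξ⟩) ?_ ?_ ?_ (fun _ _ => rfl)
  · intro ξ _
    rw [Finset.mem_sigma, Fintype.mem_piFinset]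
    refine ⟨Dl_mem _, fun m => ?_⟩
    rw [Finset.mem_product]
    exact ⟨Nat.mem_divisors.2 ⟨DK_dvd1 ξ m, prod_SK_ne ξ⟩,
      Nat.mem_divisors.2 ⟨DK_dvd2 ξ m, prod_SK_ne ξ⟩⟩
  · intro ξ _ ξ' _ h
    have h1 : SK ξ = SK ξ' := congrArg Sigma.fst h
    have h2 : DK ξ = DK ξ' := congrArg Sigma.snd h
    funext p
    have e1 : (ξ p).map Prod.fst = (ξ' p).map Prod.fst := congrFun (Dl_inj h1) p
    have g1 : ∀ m, nb (fun p => (vv (ξ p) m).1) = nb (fun p => (vv (ξ' p) m).1) := fun m =>
      congrArg Prod.fst (congrFun h2 m)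
    have g2 : ∀ m, nb (fun p => (vv (ξ p) m).2) = nb (fun p => (vv (ξ' p) m).2) := fun m =>
      congrArg Prod.snd (congrFun h2 m)
    have e2 : ∀ m, (vv (ξ p) m).1 = (vv (ξ' p) m).1 := fun m => congrFun (nb_inj (g1 m)) p
    have e3 : ∀ m, (vv (ξ p) m).2 = (vv (ξ' p) m).2 := fun m => congrFun (nb_inj (g2 m)) p
    cases hx : ξ p with
    | none =>
      cases hx' : ξ' p with
      | none => rfl
      | some a' => rw [hx, hx'] at e1; exact absurd e1 (by simp)
    | some a =>
      cases hx' : ξ' p with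
      | none => rw [hx, hx'] at e1; exact absurd e1 (by simp)
      | some a' =>
        rw [hx, hx'] at e1 e2 e3
        obtain ⟨j, v⟩ := a
        obtain ⟨j', v'⟩ := a'
        have e4 : j = j' := by simpa using e1
        have e5 : v = v' := by
          funext m
          exact Prod.ext (e2 m) (e3 m)
        rw [e4, e5]
  · rintro ⟨s, d⟩ hs
    rw [Finset.mem_sigma, Fintype.mem_piFinset] at hs
    obtain ⟨hs, hd⟩ := hs
    have hd1 : ∀ m, (d m).1 ∣ ∏ j, s j := fun m =>
      (Nat.mem_divisors.1 (Finset.mem_product.1 (hd m)).1).1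
    have hd2 : ∀ m, (d m).2 ∣ ∏ j, s j := fun m =>
      (Nat.mem_divisors.1 (Finset.mem_product.1 (hd m)).2).1
    simp only at hs
    have hPP : ∏ j, s j ∣ PP z y := by
      rw [← Dl_lab hs, prod_Dl]
      exact nb_dvd_PP _
    have hn : ∀ p : Pr z y, lab s p = none → ¬ (p : ℕ) ∣ ∏ j, s j := by
      intro p hp h
      rw [← Dl_lab hs, prod_Dl, dvd_nb, hp] at h
      exact absurd h (by simp)
    set ξ : Pr z y → Option (J × VV k) := fun p => (lab s p).map fun j =>
      (j, fun m => (decide ((p : ℕ) ∣ (d m).1), decide ((p : ℕ) ∣ (d m).2))) with hξ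
    refine ⟨ξ, Finset.mem_univ _, ?_⟩
    have e1 : SK ξ = s := by
      unfold SK
      conv_rhs => rw [← Dl_lab hs]
      congr 1
      funext p
      show ((lab s p).map fun j => (j, fun m =>
        (decide ((p : ℕ) ∣ (d m).1), decide ((p : ℕ) ∣ (d m).2)))).map Prod.fst = _
      cases lab s p <;> rfl
    have e2 : DK ξ = d := by
      funext m
      unfold DK
      refine Prod.ext ?_ ?_
      · conv_rhs => rw [← nb_eq ((hd1 m).trans hPP)]
        show nb (fun p : Pr z y => (vv (ξ p) m).1) = _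
        congr 1
        funext p
        rw [hξ]
        cases hp : lab s p with
        | none =>
          have : ¬ (p : ℕ) ∣ (d m).1 := fun h => hn p hp (h.trans (hd1 m))
          simp [vv, hp, this]
        | some j => simp [vv, hp]
      · conv_rhs => rw [← nb_eq ((hd2 m).trans hPP)]
        show nb (fun p : Pr z y => (vv (ξ p) m).2) = _
        congr 1
        funext p
        rw [hξ]
        cases hp : lab s p with
        | none =>
          have : ¬ (p : ℕ) ∣ (d m).2 := fun h => hn p hp (h.trans (hd2 m))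
          simp [vv, hp, this]
        | some j => simp [vv, hp]
    rw [e1, e2]

end big

section average

variable {J : Type} [Fintype J] [DecidableEq J] {z y : ℕ}

lemma NBk_eq (k : ℕ) (κ : J → Fin 3 → ℤ) {s : J → ℕ} (hs : s ∈ Tup J z y) :
    NBk k (fun _ => 3) κ s = ∑ d ∈ Fintype.piFinset
        (fun _ : Fin k => (∏ j, s j).divisors ×ˢ (∏ j, s j).divisors),
      ∏ p ∈ (∏ j, s j).primeFactors, (∏ m, Il (fun _ => 3) κ s (d m) true p +
        ∏ m, Il (fun _ => 3) κ s (d m) false p) / 2 := by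
  classical
  have hne : ∏ j, s j ≠ 0 := Finset.prod_ne_zero_iff.2 fun j _ => (sqf_of_mem hs j).ne_zero
  have h1 : ∀ E : Finset ℕ, (NL (∏ j, s j) (LLs (fun _ => 3) κ s E) : ℝ) =
      ∑ d ∈ (∏ j, s j).divisors ×ˢ (∏ j, s j).divisors,
        ∏ p ∈ (∏ j, s j).primeFactors, Il (fun _ => 3) κ s d (decide (p ∈ E)) p := by
    intro E
    unfold NL
    rw [Finset.card_filter]
    push_cast
    refine Finset.sum_congr rfl fun d _ => ?_
    unfold Il
    rw [prod_ind]
    unfold ind LLs
    congr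
  have h2 : ∀ E : Finset ℕ, (NL (∏ j, s j) (LLs (fun _ => 3) κ s E) : ℝ) ^ k =
      ∑ d ∈ Fintype.piFinset (fun _ : Fin k => (∏ j, s j).divisors ×ˢ (∏ j, s j).divisors),
        ∏ p ∈ (∏ j, s j).primeFactors, ∏ m, Il (fun _ => 3) κ s (d m) (decide (p ∈ E)) p := by
    intro E
    rw [h1 E]
    have e : ∀ x : ℝ, x ^ k = ∏ _m : Fin k, x := fun x => by
      rw [prod_const, card_univ, Fintype.card_fin]
    rw [e, Finset.prod_univ_sum]
    exact Finset.sum_congr rfl fun d _ => Finset.prod_comm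
  unfold NBk
  rw [Finset.sum_congr rfl fun E _ => h2 E, Finset.sum_comm, Finset.mul_sum]
  refine Finset.sum_congr rfl fun d _ => ?_
  refine avg (P3 (fun _ => 3) s) (∏ j, s j).primeFactors ?_
    (fun neg p => ∏ m, Il (fun _ => 3) κ s (d m) neg p) ?_
  · unfold P3
    refine Nat.primeFactors_mono ?_ hne
    exact Finset.prod_dvd_prod_of_subset _ _ _ (Finset.filter_subset _ _)
  · intro p hp hpA
    exfalso
    apply hpA
    unfold P3
    simpa using hp

end average

section final

variable {J : Type} [Fintype J] [DecidableEq J] {z y k : ℕ}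

/-- the local term -/
noncomputable def TmK (κ : J → Fin 3 → ℤ) (c : ℕ)
    (ξ : Pr z y → Option (J × VV k)) (p : Pr z y) : ℝ :=
  (ξ p).elim 1 fun a => 1 / ((p : ℝ) - c) *
    ((∏ m, ind (LL 3 (κ a.1) true p (a.2 m).1 (a.2 m).2 (sgn p (DK ξ m).1) (sgn p (DK ξ m).2)) +
      ∏ m, ind (LL 3 (κ a.1) false p (a.2 m).1 (a.2 m).2 (sgn p (DK ξ m).1)
        (sgn p (DK ξ m).2))) / 2)

lemma lhsK (κ : J → Fin 3 → ℤ) (c : ℕ) :
    ∑ s ∈ Tup J z y, NBk k (fun _ => 3) κ s * ∏ j, gw 1 c (s j) =
      ∑ ξ : Pr z y → Option (J × VV k), ∏ p, TmK κ c ξ p := by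
  have h1 : ∀ s ∈ Tup J z y, NBk k (fun _ => 3) κ s * ∏ j, gw 1 c (s j) =
      ∑ d ∈ Fintype.piFinset (fun _ : Fin k => (∏ j, s j).divisors ×ˢ (∏ j, s j).divisors),
        (∏ p ∈ (∏ j, s j).primeFactors, (∏ m, Il (fun _ => 3) κ s (d m) true p +
          ∏ m, Il (fun _ => 3) κ s (d m) false p) / 2) * ∏ j, gw 1 c (s j) := by
    intro s hs
    rw [NBk_eq k κ hs, Finset.sum_mul]
  rw [Finset.sum_congr rfl h1, sum_bigK fun s d =>
    (∏ p ∈ (∏ j, s j).primeFactors, (∏ m, Il (fun _ => 3) κ s (d m) true p +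
          ∏ m, Il (fun _ => 3) κ s (d m) false p) / 2) * ∏ j, gw 1 c (s j)]
  refine Finset.sum_congr rfl fun ξ _ => ?_
  have h2 : ∏ j, gw 1 c (SK ξ j) = ∏ p : Pr z y, ((ξ p).map Prod.fst).elim 1
      fun _ => 1 / ((p : ℝ) - c) := prod_gw (fun _ => 1) c _
  have h3 : ∏ j, SK ξ j = nb fun p => ((ξ p).map Prod.fst).isSome := prod_Dl _
  rw [h2, h3, prod_pf _ fun p => (∏ m, Il (fun _ => 3) κ (SK ξ) (DK ξ m) true p +
    ∏ m, Il (fun _ => 3) κ (SK ξ) (DK ξ m) false p) / 2, ← Finset.prod_mul_distrib]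
  refine Finset.prod_congr rfl fun p _ => ?_
  unfold TmK
  cases hx : ξ p with
  | none => simp
  | some a =>
    have h4 : ∀ neg m, Il (fun _ => 3) κ (SK ξ) (DK ξ m) neg p =
        ind (LL 3 (κ a.1) neg p (a.2 m).1 (a.2 m).2 (sgn p (DK ξ m).1) (sgn p (DK ξ m).2)) := by
      intro neg m
      unfold Il
      have e1 : dv p ((DK ξ m).1 : ℤ) = (a.2 m).1 := by
        have : (vv (ξ p) m).1 = (a.2 m).1 := by rw [hx]; rfl
        rw [← this]
        unfold dv
        rw [Bool.eq_iff_iff, decide_eq_true_iff, Int.natCast_dvd_natCast]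
        exact dvd_nb _ p
      have e2 : dv p ((DK ξ m).2 : ℤ) = (a.2 m).2 := by
        have : (vv (ξ p) m).2 = (a.2 m).2 := by rw [hx]; rfl
        rw [← this]
        unfold dv
        rw [Bool.eq_iff_iff, decide_eq_true_iff, Int.natCast_dvd_natCast]
        exact dvd_nb _ p
      have e3 : ∀ j, (p : ℕ) ∣ SK ξ j ↔ j = a.1 := by
        intro j
        unfold SK Dl
        rw [dvd_nb, decide_eq_true_iff]
        show (ξ p).map Prod.fst = some j ↔ j = a.1
        rw [hx]
        simp [eq_comm]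
      congr 1
      simp only [e1, e2, e3, forall_eq]
    simp only [h4]
    simp only [Option.map_some, Option.isSome_some, if_true, Option.elim]
    ring

lemma sum_IK (F : J × VV k × VV k → ℝ) :
    ∑ i : IK J k, F i.1 = ∑ r, if bf r.2.1 r.2.2 = 0 then F r else 0 := by
  rw [← Finset.sum_filter]
  exact (Finset.sum_subtype (univ.filter fun r : J × VV k × VV k => bf r.2.1 r.2.2 = 0)
    (fun x => by simp) F).symm

/-- forget the character -/
def fgK (x : Option (IK J k)) : Option (J × VV k) := x.map fun i => (i.1.1, i.1.2.1)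

/-- the signs -/
noncomputable def SgK (ξ : Pr z y → Option (J × VV k)) (p : Pr z y) (χ : VV k) : ℝ :=
  ∏ m, ((if (χ m).1 = true then sg (sgn p (DK ξ m).1) else 1) *
    (if (χ m).2 = true then sg (sgn p (DK ξ m).2) else 1))

/-- the local factor -/
noncomputable def GK (κ : J → Fin 3 → ℤ) (c : ℕ) (ξ : Pr z y → Option (J × VV k)) (p : Pr z y)
    (x : Option (IK J k)) : ℝ :=
  x.elim 1 fun i => 1 / ((p : ℝ) - c) * ((1 / 4 : ℝ) ^ k * Jr (κK κ i) p * SgK ξ p i.1.2.2)

lemma sum_GK (κ : J → Fin 3 → ℤ) (c : ℕ) (ξ : Pr z y → Option (J × VV k)) (p : Pr z y)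
    (hk : ∀ j i, ¬ ((p : ℕ) : ℤ) ∣ κ j i) :
    ∑ x ∈ univ.filter (fun x : Option (IK J k) => fgK x = ξ p), GK κ c ξ p x = TmK κ c ξ p := by
  rw [Finset.sum_filter, Fintype.sum_option]
  unfold TmK
  cases hx : ξ p with
  | none => simp [fgK, GK]
  | some a =>
    obtain ⟨j, v⟩ := a
    have h0 : (if fgK (none : Option (IK J k)) = some (j, v) then GK κ c ξ p none else 0) = 0 := by
      rw [if_neg]
      simp [fgK]
    rw [h0, zero_add]
    set F : J × VV k × VV k → ℝ := fun r =>
          if r.1 = j ∧ r.2.1 = v then 1 / ((p : ℝ) - c) * ((1 / 4 : ℝ) ^ k *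
            Jr (∏ m, kk (κ r.1) (r.2.1 m) (r.2.2 m)) p * SgK ξ p r.2.2) else 0 with hF
    have h1 : ∀ i : IK J k, (if fgK (some i) = some (j, v) then GK κ c ξ p (some i) else 0) =
        F i.1 := by
      intro i
      refine if_congr ?_ rfl rfl
      simp only [fgK, Option.map_some, Option.some.injEq, Prod.mk.injEq]
    refine (Finset.sum_congr rfl fun i _ => h1 i).trans ((sum_IK F).trans ?_)
    rw [Fintype.sum_prod_type, Finset.sum_eq_single j]
    · rw [Fintype.sum_prod_type, Finset.sum_eq_single v]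
      · show _ = 1 / ((p : ℝ) - c) * _
        rw [locK (κ j) (Pr_prime p) (hk j) v (fun m => sgn p (DK ξ m).1)
          (fun m => sgn p (DK ξ m).2), Finset.mul_sum]
        refine Finset.sum_congr rfl fun x _ => ?_
        simp only [hF, and_self, if_true, mul_ite, mul_zero, SgK]
      · intro v' _ hv'
        refine Finset.sum_eq_zero fun x _ => ?_
        simp [hF, hv']
      · intro h
        exact absurd (Finset.mem_univ _) h
    · intro j' _ hj'
      refine Finset.sum_eq_zero fun x _ => ?_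
      simp [hF, hj']
    · intro h
      exact absurd (Finset.mem_univ _) h

lemma bitsK (q p : Pr z y) (v χ : VV k) (h : q = p → bf v χ = 0) :
    (if decide (bf v χ = 1) = true then Jr (q : ℕ) p else 1) =
      ∏ m, ((if (χ m).1 = true then (if q ≠ p ∧ (v m).1 = true then Jr (q : ℕ) p else 1) else 1) *
      (if (χ m).2 = true then (if q ≠ p ∧ (v m).2 = true then Jr (q : ℕ) p else 1) else 1)) := by
  by_cases hqp : q = p
  · rw [h hqp]
    simp [hqp]
  · have hJ : Jr (q : ℕ) p * Jr (q : ℕ) p = 1 := by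
      have hnd : ¬ ((p : ℕ) : ℤ) ∣ ((q : ℕ) : ℤ) := by
        rw [Int.natCast_dvd_natCast]
        intro hd
        exact hqp (Subtype.ext ((Nat.prime_dvd_prime_iff_eq (Pr_prime p) (Pr_prime q)).1 hd).symm)
      rw [← sg_sg0 (Pr_prime p) hnd]
      unfold sg
      split_ifs <;> norm_num
    have h1 : (if decide (bf v χ = 1) = true then Jr (q : ℕ) p else 1) =
        pw (Jr (q : ℕ) p) (bf v χ) := by
      unfold pw
      simp only [decide_eq_true_eq]
    rw [h1]
    unfold bf
    rw [pw_sum hJ]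
    refine prod_congr rfl fun m _ => ?_
    rw [pw_lf hJ]
    simp only [ne_eq, hqp, not_false_eq_true, true_and]

lemma rhsK (κ : J → Fin 3 → ℤ) (c : ℕ)
    (ξ : Pr z y → Option (J × VV k)) (l : Pr z y → Option (IK J k))
    (h : ∀ p, fgK (l p) = ξ p) :
    (∏ i, gw ((1 / 4 : ℝ) ^ k) c (Dl l i)) * Pool.Agent.W262.RK.Sym LK (κK κ) (Dl l) =
      ∏ p, GK κ c ξ p (l p) := by
  rw [prod_gw (fun _ => (1 / 4 : ℝ) ^ k), Sym_Dl, ← Finset.prod_mul_distrib,
    ← Finset.prod_mul_distrib]
  refine Finset.prod_congr rfl fun p _ => ?_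
  cases hl : l p with
  | none =>
    have h0 : ∀ q, lk (LK (J := J) (k := k)) (l q) none = false := by
      intro q
      cases l q <;> rfl
    simp [h0, GK]
  | some i =>
    have hAl := i.2
    have h1 : ∀ q, lk LK (l q) (some i) = decide (bf (vv (ξ q)) i.1.2.2 = 1) := by
      intro q
      rw [← h q]
      cases hq : l q with
      | none =>
        have : bf (vv (fgK (none : Option (IK J k)))) i.1.2.2 = 0 := by
          unfold bf lf vv fgK
          simp
        rw [this]
        rfl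
      | some i' => rfl
    have h2 : ∏ q : Pr z y, (if lk LK (l q) (some i) = true then Jr (q : ℕ) p else 1) =
        SgK ξ p i.1.2.2 := by
      have h3 : ∀ a : Bool, ∀ b : Pr z y → Bool, (if a = true then sg (sgn p (nb b : ℤ)) else 1) =
          ∏ q : Pr z y, if a = true then (if q ≠ p ∧ b q = true then Jr (q : ℕ) p else 1)
            else 1 := by
        intro a b
        cases a
        · simp
        · simp only [if_true]
          exact sgn_nb b p
      have h4 : SgK ξ p i.1.2.2 = ∏ m, ∏ q : Pr z y,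
          ((if (i.1.2.2 m).1 = true then
            (if q ≠ p ∧ (vv (ξ q) m).1 = true then Jr (q : ℕ) p else 1) else 1) *
          (if (i.1.2.2 m).2 = true then
            (if q ≠ p ∧ (vv (ξ q) m).2 = true then Jr (q : ℕ) p else 1) else 1)) := by
        unfold SgK DK
        refine prod_congr rfl fun m _ => ?_
        rw [h3, h3, ← Finset.prod_mul_distrib]
      rw [h4, Finset.prod_comm]
      refine Finset.prod_congr rfl fun q _ => ?_
      rw [h1]
      refine bitsK q p _ _ fun hqp => ?_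
      rw [hqp, ← h p, hl]
      exact hAl
    rw [h2]
    simp only [GK, Option.elim]
    ring

end final

/-- the expansion of the `k`-th moment -/
theorem expK (J : Type) [Fintype J] [DecidableEq J] (k : ℕ) (κ : J → Fin 3 → ℤ) (c z y : ℕ)
    (hκ : ∀ j i, κ j i ≠ 0) (hκz : ∀ j i, (κ j i).natAbs ≤ z) :
    ∑ s ∈ Tup J z y, NBk k (fun _ => 3) κ s * ∏ j, gw 1 c (s j) =
      ∑ d ∈ Tup (IK J k) z y, (∏ i, gw ((1 / 4 : ℝ) ^ k) c (d i)) *
        Pool.Agent.W262.RK.Sym LK (κK κ) d := by
  classical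
  rw [lhsK, sum_Tup, ← Finset.sum_fiberwise univ
    (fun (l : Pr z y → Option (IK J k)) => fun p => fgK (l p))]
  refine Finset.sum_congr rfl fun ξ _ => ?_
  have h1 : (univ.filter fun l : Pr z y → Option (IK J k) => (fun p => fgK (l p)) = ξ) =
      Fintype.piFinset (fun p => univ.filter (fun x : Option (IK J k) => fgK x = ξ p)) := by
    ext l
    simp only [Finset.mem_filter, Finset.mem_univ, true_and, Fintype.mem_piFinset, funext_iff]
  have hk : ∀ p : Pr z y, ∀ j i, ¬ ((p : ℕ) : ℤ) ∣ κ j i := by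
    intro p j i hd
    have hz : z < p := by
      have := p.2
      unfold PS at this
      exact (Finset.mem_Ioc.1 (Finset.mem_filter.1 this).1).1
    have h3 := Nat.le_of_dvd (Int.natAbs_pos.mpr (hκ j i)) (Int.natCast_dvd.1 hd)
    have h4 := hκz j i
    omega
  rw [h1, Finset.prod_congr rfl fun p _ => (sum_GK κ c ξ p (hk p)).symm, Finset.prod_univ_sum]
  refine Finset.sum_congr rfl fun l hl => ?_
  rw [Fintype.mem_piFinset] at hl
  exact (rhsK κ c ξ l fun p => (Finset.mem_filter.1 (hl p)).2).symm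

end Pool.Agent.V7H45.TM
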