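import Pool.Agent.V7H45.TM.Avg

/-!
# The moments over all integers `|t| ≤ X`
-/

set_option autoImplicit false

namespace Pool.Agent.V7H45.TM

open Finset Pool.Agent.W262.RK

/-- the product of the forms -/
lemma F4_three {J : Type} [Fintype J] (a : Fin 3 → ℤ) (α β : J → ℤ) (t : ℤ) (k : Fin 3) :
    F4 (fun _ => 3) a α β t k = a k * ∏ j, (α j * t + β j) := by
  unfold F4 fs ff
  simp

/-- the twist -/
def tw (a b d : ℤ) : WeierstrassCurve ℚ := EAB (a * d) (b * d)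

/-- positive parameters -/
lemma pos {J : Type} [Fintype J] [DecidableEq J] (r : ℕ) (hr : 1 ≤ r) (a b : ℤ) (ha : a ≠ 0)
    (hb : b ≠ 0) (hab : a ≠ b) (α β : J → ℤ) (hα : ∀ j, α j ≠ 0)
    (hR : ∀ j l, j ≠ l → α j * β l ≠ α l * β j) :
    ∃ C : ℝ, 0 ≤ C ∧ ∀ X : ℕ, ∑ t ∈ Icc 1 X, ((2 : ℝ) ^ Module.finrank ℤ
      (tw a b (∏ j, (α j * ((t : ℕ) : ℤ) + β j))).toAffine.Point) ^ r ≤ C * X := by
  classical
  set A : Fin 3 → ℤ := ![a, b, a - b] with hA
  obtain ⟨C, hC⟩ := avgK r hr A α β (by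
      intro k
      fin_cases k
      · exact ha
      · exact hb
      · exact sub_ne_zero.2 hab) hα (fun j l hjl => sub_ne_zero.2 (hR j l hjl)) rfl
  set R : ℕ → ℝ := fun t => ((2 : ℝ) ^ Module.finrank ℤ
      (tw a b (∏ j, (α j * ((t : ℕ) : ℤ) + β j))).toAffine.Point) ^ r with hRdef
  have hRe : ∀ t : ℕ, R t = ((2 : ℝ) ^ Module.finrank ℤ
        (EAB (F4 (fun _ => 3) A α β t 0) (F4 (fun _ => 3) A α β t 1)).toAffine.Point) ^ r := by
    intro t
    rw [F4_three, F4_three]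
    rfl
  have hR0 : ∀ t, 0 ≤ R t := fun t => by positivity
  -- the zeros
  set T0 : ℕ := ∑ j, (β j).natAbs with hT0
  have hzero : ∀ t : ℕ, (¬ ∀ j, ff α β t j ≠ 0) → t ≤ T0 := by
    intro t ht
    push Not at ht
    obtain ⟨j, hj⟩ := ht
    unfold ff at hj
    have h1 : (β j).natAbs = (α j).natAbs * t := by
      have h2 : β j = -(α j * t) := by linarith
      rw [h2, Int.natAbs_neg, Int.natAbs_mul, Int.natAbs_natCast]
    have h3 := single_le_sum (f := fun j => (β j).natAbs) (fun _ _ => Nat.zero_le _) (mem_univ j)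
    have h4 : t ≤ (α j).natAbs * t := Nat.le_mul_of_pos_left _ (Int.natAbs_pos.2 (hα j))
    omega
  set D : ℝ := ∑ t ∈ Icc 1 T0, R t with hD
  have hD0 : 0 ≤ D := sum_nonneg fun t _ => hR0 t
  refine ⟨max C 0 + D, add_nonneg (le_max_right _ _) hD0, fun X => ?_⟩
  rcases Nat.eq_zero_or_pos X with hX | hX
  · subst hX; simp
  have hXr : (1 : ℝ) ≤ X := by exact_mod_cast hX
  have h1 : ∑ t ∈ Icc 1 X, R t = ∑ t ∈ (Icc 1 X).filter (fun t : ℕ => ∀ j, ff α β t j ≠ 0), R t +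
      ∑ t ∈ (Icc 1 X).filter (fun t : ℕ => ¬ ∀ j, ff α β t j ≠ 0), R t :=
    (sum_filter_add_sum_filter_not _ _ _).symm
  have h2 : ∑ t ∈ (Icc 1 X).filter (fun t : ℕ => ¬ ∀ j, ff α β t j ≠ 0), R t ≤ D := by
    refine sum_le_sum_of_subset_of_nonneg ?_ (fun t _ _ => hR0 t)
    intro t ht
    rw [mem_filter, mem_Icc] at ht
    rw [mem_Icc]
    exact ⟨ht.1.1, hzero t ht.2⟩
  have h3 : ∑ t ∈ (Icc 1 X).filter (fun t : ℕ => ∀ j, ff α β t j ≠ 0), R t ≤ C * X := by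
    rw [sum_congr rfl fun t _ => hRe t]
    exact hC X
  have h4 : C * X ≤ max C 0 * X := mul_le_mul_of_nonneg_right (le_max_left _ _) (by positivity)
  have h5 : D ≤ D * X := le_mul_of_one_le_right hD0 hXr
  show ∑ t ∈ Icc 1 X, R t ≤ (max C 0 + D) * X
  rw [h1, add_mul]
  exact add_le_add (h3.trans h4) (h2.trans h5)

/-- all the integers `|t| ≤ X` -/
theorem full {J : Type} [Fintype J] [DecidableEq J] (r : ℕ) (a b : ℤ) (ha : a ≠ 0)
    (hb : b ≠ 0) (hab : a ≠ b) (α β : J → ℤ) (hα : ∀ j, α j ≠ 0)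
    (hR : ∀ j l, j ≠ l → α j * β l ≠ α l * β j) :
    ∃ C : ℝ, 0 ≤ C ∧ ∀ X : ℕ, 1 ≤ X → ∑ t ∈ Icc (-(X : ℤ)) X, ((2 : ℝ) ^ Module.finrank ℤ
      (tw a b (∏ j, (α j * t + β j))).toAffine.Point) ^ r ≤ C * X := by
  classical
  rcases Nat.eq_zero_or_pos r with hr | hr
  · subst hr
    refine ⟨3, by norm_num, fun X hX => ?_⟩
    simp only [pow_zero, sum_const, Int.card_Icc, nsmul_eq_mul, mul_one]
    have : ((X : ℤ) + 1 - -(X : ℤ)).toNat = 2 * X + 1 := by omega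
    rw [this]
    have hXr : (1 : ℝ) ≤ X := by exact_mod_cast hX
    push_cast
    linarith
  obtain ⟨C1, hC10, hC1⟩ := pos r hr a b ha hb hab α β hα hR
  obtain ⟨C2, hC20, hC2⟩ := pos r hr a b ha hb hab (fun j => -α j) β
    (fun j => neg_ne_zero.2 (hα j)) (fun j l hjl h => hR j l hjl (by linarith))
  set P : ℤ → ℝ := fun t => ((2 : ℝ) ^ Module.finrank ℤ
      (tw a b (∏ j, (α j * t + β j))).toAffine.Point) ^ r with hP
  have hP0 : ∀ t, 0 ≤ P t := fun t => by positivity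
  refine ⟨C1 + C2 + P 0, add_nonneg (add_nonneg hC10 hC20) (hP0 0), fun X hX => ?_⟩
  have hXr : (1 : ℝ) ≤ X := by exact_mod_cast hX
  have e1 : ∑ t ∈ Icc 1 X, P (t : ℤ) ≤ C1 * X := hC1 X
  have e2 : ∑ t ∈ Icc 1 X, P (-(t : ℤ)) ≤ C2 * X := by
    refine le_trans (le_of_eq ?_) (hC2 X)
    refine sum_congr rfl fun t _ => ?_
    have e : ∏ j, (α j * -((t : ℕ) : ℤ) + β j) = ∏ j, (-α j * ((t : ℕ) : ℤ) + β j) :=
      prod_congr rfl fun j _ => by ring
    simp only [hP]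
    rw [e]
  have hsub : Icc (-(X : ℤ)) X ⊆ ((Icc 1 X).image (fun t : ℕ => (t : ℤ)) ∪
      (Icc 1 X).image (fun t : ℕ => -(t : ℤ))) ∪ {0} := by
    intro t ht
    rw [mem_Icc] at ht
    rw [mem_union, mem_union, mem_image, mem_image, mem_singleton]
    rcases lt_trichotomy t 0 with h | h | h
    · left; right
      exact ⟨t.natAbs, mem_Icc.2 (by omega), by omega⟩
    · right; exact h
    · left; left
      exact ⟨t.natAbs, mem_Icc.2 (by omega), by omega⟩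
  have hun : ∀ S T : Finset ℤ, ∑ t ∈ S ∪ T, P t ≤ ∑ t ∈ S, P t + ∑ t ∈ T, P t := by
    intro S T
    rw [← sum_union_inter]
    exact le_add_of_nonneg_right (sum_nonneg fun t _ => hP0 t)
  have e3 : ∑ t ∈ (Icc 1 X).image (fun t : ℕ => (t : ℤ)), P t = ∑ t ∈ Icc 1 X, P (t : ℤ) :=
    sum_image (fun i _ j _ hij => by exact_mod_cast hij)
  have e4 : ∑ t ∈ (Icc 1 X).image (fun t : ℕ => -(t : ℤ)), P t = ∑ t ∈ Icc 1 X, P (-(t : ℤ)) :=
    sum_image (fun i _ j _ hij => by simpa using hij)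
  show ∑ t ∈ Icc (-(X : ℤ)) X, P t ≤ (C1 + C2 + P 0) * X
  have h5 := (sum_le_sum_of_subset_of_nonneg hsub (fun t _ _ => hP0 t)).trans
    ((hun _ _).trans (add_le_add (hun _ _) le_rfl))
  rw [e3, e4, sum_singleton] at h5
  have h6 : P 0 ≤ P 0 * X := le_mul_of_one_le_right (hP0 0) hXr
  linarith

end Pool.Agent.V7H45.TM
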